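import Pool.Agent.H31.FW.TargetsG
import Pool.Agent.H16.DW.TT

/-!
# (TT) the mean square for a system of representatives, complete sums modulo `q`
-/

set_option autoImplicit false
set_option linter.unusedSectionVars false
set_option linter.unusedVariables false

open NumberField NumberField.InfinitePlace NumberField.Units
  NumberField.Units.dirichletUnitTheorem MeasureTheory Set Filter Complex
open scoped nonZeroDivisors ENNReal

namespace Pool.Agent.H18.FW.TT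

open Pool.Agent.H31.FW
open Pool.Agent.H25.HK Pool.Agent.H23.LB Pool.Agent.H23.LC Pool.Agent.H29.DW
open Pool.Agent.H28.RC (Rep ft idl)
open Pool.Agent.H29.TC (GK fk_le dvs)
open Pool.Agent.H16.DW hiding rho_le vol_le real_main pref_eq th_inv pair_ct point_bound pf_TT

section real

open Real

/-- (a): the ratio of the volumes -/
private theorem rho_le {n : ℕ} (hn : 0 < n) {κ : ℝ} (hκ : 0 < κ) (hκn : κ * n ≤ 1)
    {sd nj ne nk h P : ℝ} (j : ℕ) (hsd : 1 ≤ sd) (hnj : 1 ≤ nj) (hne : 1 ≤ ne) (hnk : 1 ≤ nk)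
    (hen : ne ≤ nk ^ 2) (hh : 1 ≤ h) (hP : 1 ≤ P) (hP2 : P ≤ 4 ^ n * h) :
    (((P * 2 ^ (j * n) / h ^ 2) / (sd * (nj * ne))) /
        ((P * 2 ^ (j * n) * h)⁻¹ / (sd * nk ^ 2)) +
      ((P * 2 ^ (j * n) * h)⁻¹ / (sd * nk ^ 2)) /
        ((P * 2 ^ (j * n) / h ^ 2) / (sd * (nj * ne)))) ^ κ ≤
      32 * 4 ^ j * (h * nj * nk) ^ (2 * κ) := by
  set N : ℝ := 2 ^ (j * n) with hN
  have hN1 : 1 ≤ N := one_le_pow₀ (by norm_num)
  have e1 : ((P * N / h ^ 2) / (sd * (nj * ne))) / ((P * N * h)⁻¹ / (sd * nk ^ 2)) =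
      P ^ 2 * N ^ 2 * nk ^ 2 / (h * nj * ne) := by
    field_simp
  have e2 : ((P * N * h)⁻¹ / (sd * nk ^ 2)) / ((P * N / h ^ 2) / (sd * (nj * ne))) =
      h * nj * ne / (P ^ 2 * N ^ 2 * nk ^ 2) := by
    field_simp
  have hN0 : 0 < N := by linarith
  have h16 : (1 : ℝ) ≤ 16 ^ n := one_le_pow₀ (by norm_num)
  have b1 : P ^ 2 * N ^ 2 * nk ^ 2 / (h * nj * ne) ≤ 16 ^ n * (N ^ 2 * (h * nj * nk ^ 2)) := by
    rw [div_le_iff₀ (by positivity)]
    have c1 : P ^ 2 ≤ 16 ^ n * h ^ 2 := by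
      have : P ^ 2 ≤ (4 ^ n * h) ^ 2 := pow_le_pow_left₀ (by linarith) hP2 2
      refine this.trans (le_of_eq ?_)
      rw [mul_pow, ← pow_mul, mul_comm n 2, pow_mul]
      norm_num
    have c2 : 16 ^ n * (N ^ 2 * (h * nj * nk ^ 2)) * (h * nj * ne) =
        (16 ^ n * h ^ 2) * N ^ 2 * nk ^ 2 * (nj ^ 2 * ne) := by ring
    rw [c2]
    have c3 : 1 ≤ nj ^ 2 * ne := by nlinarith
    have c4 : P ^ 2 * N ^ 2 * nk ^ 2 ≤ (16 ^ n * h ^ 2) * N ^ 2 * nk ^ 2 :=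
      mul_le_mul_of_nonneg_right (mul_le_mul_of_nonneg_right c1 (by positivity)) (by positivity)
    calc P ^ 2 * N ^ 2 * nk ^ 2 ≤ (16 ^ n * h ^ 2) * N ^ 2 * nk ^ 2 := c4
      _ ≤ _ := le_mul_of_one_le_right (by positivity) c3
  have b2 : h * nj * ne / (P ^ 2 * N ^ 2 * nk ^ 2) ≤ 16 ^ n * (N ^ 2 * (h * nj * nk ^ 2)) := by
    have c1 : 1 ≤ P ^ 2 * N ^ 2 * nk ^ 2 := by
      have := one_le_pow₀ hP (n := 2)
      have := one_le_pow₀ hN1 (n := 2)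
      have := one_le_pow₀ hnk (n := 2)
      exact one_le_mul_of_one_le_of_one_le (one_le_mul_of_one_le_of_one_le
        (by assumption) (by assumption)) (by assumption)
    refine (div_le_self (by positivity) c1).trans ?_
    have c2 : ne ≤ nk ^ 2 := hen
    have c3 : h * nj * ne ≤ h * nj * nk ^ 2 := mul_le_mul_of_nonneg_left c2 (by positivity)
    have c4 : 1 ≤ 16 ^ n * N ^ 2 := one_le_mul_of_one_le_of_one_le h16 (one_le_pow₀ hN1)
    calc h * nj * ne ≤ h * nj * nk ^ 2 := c3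
      _ ≤ (16 ^ n * N ^ 2) * (h * nj * nk ^ 2) := le_mul_of_one_le_left (by positivity) c4
      _ = _ := by ring
  rw [e1, e2]
  have b3 : P ^ 2 * N ^ 2 * nk ^ 2 / (h * nj * ne) + h * nj * ne / (P ^ 2 * N ^ 2 * nk ^ 2) ≤
      32 ^ (1 * n) * (4 ^ (j * n) * (h * nj * nk) ^ 2) := by
    have c1 : N ^ 2 = 4 ^ (j * n) := by
      rw [hN, ← pow_mul, mul_comm (j * n) 2, pow_mul]
      norm_num
    have c2 : h * nj * nk ^ 2 ≤ (h * nj * nk) ^ 2 := by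
      have c5 : 1 ≤ h * nj := one_le_mul_of_one_le_of_one_le hh hnj
      calc h * nj * nk ^ 2 ≤ (h * nj) * (h * nj * nk ^ 2) :=
            le_mul_of_one_le_left (by positivity) c5
        _ = _ := by ring
    have c3 : (2 : ℝ) * 16 ^ n ≤ 32 ^ n := by
      have : (32 : ℝ) ^ n = 2 ^ n * 16 ^ n := by
        rw [← mul_pow]
        norm_num
      rw [this]
      refine mul_le_mul_of_nonneg_right ?_ (by positivity)
      calc (2 : ℝ) = 2 ^ 1 := by norm_num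
        _ ≤ 2 ^ n := pow_le_pow_right₀ (by norm_num) hn
    calc _ ≤ 2 * 16 ^ n * (N ^ 2 * (h * nj * nk ^ 2)) := by linarith
      _ ≤ 32 ^ n * (N ^ 2 * (h * nj * nk ^ 2)) :=
          mul_le_mul_of_nonneg_right c3 (by positivity)
      _ ≤ 32 ^ n * (N ^ 2 * (h * nj * nk) ^ 2) := by
          refine mul_le_mul_of_nonneg_left (mul_le_mul_of_nonneg_left c2 (by positivity))
            (by positivity)
      _ = _ := by rw [c1, one_mul]
  have b0 : 0 ≤ P ^ 2 * N ^ 2 * nk ^ 2 / (h * nj * ne) +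
      h * nj * ne / (P ^ 2 * N ^ 2 * nk ^ 2) := by positivity
  refine (Real.rpow_le_rpow b0 b3 hκ.le).trans ?_
  rw [Real.mul_rpow (by positivity) (by positivity),
    Real.mul_rpow (by positivity) (by positivity)]
  have d1 := rpow_pow_kappa hκ hκn 32 (by norm_num) 1
  have d2 := rpow_pow_kappa hκ hκn 4 (by norm_num) j
  have d3 : ((h * nj * nk) ^ 2) ^ κ = (h * nj * nk) ^ (2 * κ) := by
    rw [← Real.rpow_natCast, ← Real.rpow_mul (by positivity)]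
    norm_num
  rw [d3, pow_one] at *
  have d4 : (0 : ℝ) ≤ (h * nj * nk) ^ (2 * κ) := by positivity
  have d5 : (0 : ℝ) ≤ (4 ^ (j * n) : ℝ) ^ κ := by positivity
  calc (32 ^ (1 * n) : ℝ) ^ κ * ((4 ^ (j * n) : ℝ) ^ κ * (h * nj * nk) ^ (2 * κ)) ≤
      32 * (4 ^ j * (h * nj * nk) ^ (2 * κ)) :=
        mul_le_mul d1 (mul_le_mul_of_nonneg_right d2 d4) (by positivity) (by norm_num)
    _ = _ := by ring

/-- (c): the volumes -/
private theorem vol_le {n : ℕ} {sd nj ne nk m h P q E : ℝ} (j : ℕ) (hsd : 1 ≤ sd) (hnj : 1 ≤ nj)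
    (hne : 1 ≤ ne) (hnk : 1 ≤ nk) (hm : 0 ≤ m) (hme : m ≤ ne) (hmk : m ≤ nk) (hh : 1 ≤ h) (hP : 1 ≤ P)
    (hP2 : P ≤ 4 ^ n * h) (hq : 0 < q) (hE : 0 < E) (hE2 : E ≤ 3 * q) :
    nk * m * sd * (E * ((P * 2 ^ (j * n) / h ^ 2) / (sd * (nj * ne))) +
      E * ((P * 2 ^ (j * n) * h)⁻¹ / (sd * nk ^ 2)) +
      E * ((P * 2 ^ (j * n) / h ^ 2) / (sd * (nj * ne))) *
        (E * ((P * 2 ^ (j * n) * h)⁻¹ / (sd * nk ^ 2)))) ≤
    9 * 4 ^ n * 2 ^ (j * n) * (q * h⁻¹ * (1 + nk / nj + q * (h ^ 2)⁻¹ / (sd * nj * nk))) := by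
  set N : ℝ := 2 ^ (j * n) with hN
  have hN1 : 1 ≤ N := one_le_pow₀ (by norm_num)
  have hN0 : 0 < N := by linarith
  have h4 : (1 : ℝ) ≤ 4 ^ n := one_le_pow₀ (by norm_num)
  have e1 : nk * m * sd * (E * ((P * N / h ^ 2) / (sd * (nj * ne))) +
      E * ((P * N * h)⁻¹ / (sd * nk ^ 2)) +
      E * ((P * N / h ^ 2) / (sd * (nj * ne))) *
        (E * ((P * N * h)⁻¹ / (sd * nk ^ 2)))) =
      E * ((P * N * (h ^ 2)⁻¹ * (nk / nj)) * (m / ne)) + E * (m / (nk * P * N * h)) +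
        E * ((E * ((h ^ 3)⁻¹ / (sd * nj * nk))) * (m / ne)) := by
    field_simp
  have hr0 : 0 ≤ m / ne := by positivity
  have hr1 : m / ne ≤ 1 := (div_le_one (by linarith)).2 hme
  rw [e1]
  have b1 : (P * N * (h ^ 2)⁻¹ * (nk / nj)) * (m / ne) ≤ 4 ^ n * N * (h⁻¹ * (nk / nj)) := by
    refine (mul_le_of_le_one_right (by positivity) hr1).trans ?_
    have c1 : P * (h ^ 2)⁻¹ ≤ 4 ^ n * h⁻¹ := by
      calc P * (h ^ 2)⁻¹ ≤ (4 ^ n * h) * (h ^ 2)⁻¹ :=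
            mul_le_mul_of_nonneg_right hP2 (by positivity)
        _ = 4 ^ n * h⁻¹ := by field_simp
    calc P * N * (h ^ 2)⁻¹ * (nk / nj) = (P * (h ^ 2)⁻¹) * (N * (nk / nj)) := by ring
      _ ≤ (4 ^ n * h⁻¹) * (N * (nk / nj)) := mul_le_mul_of_nonneg_right c1 (by positivity)
      _ = _ := by ring
  have b2 : m / (nk * P * N * h) ≤ 4 ^ n * N * (h⁻¹ * 1) := by
    have c1 : m / (nk * P * N * h) = (m / nk) * (P * N)⁻¹ * h⁻¹ := by field_simp
    have c2 : m / nk ≤ 1 := (div_le_one (by linarith)).2 hmk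
    have c3 : (P * N)⁻¹ ≤ 1 := inv_le_one_of_one_le₀ (one_le_mul_of_one_le_of_one_le hP hN1)
    have c4 : (m / nk) * (P * N)⁻¹ ≤ 1 := mul_le_one₀ c2 (by positivity) c3
    have c5 : 1 ≤ 4 ^ n * N := one_le_mul_of_one_le_of_one_le h4 hN1
    rw [c1, mul_one]
    exact mul_le_mul_of_nonneg_right (c4.trans c5) (by positivity)
  have b3 : (E * ((h ^ 3)⁻¹ / (sd * nj * nk))) * (m / ne) ≤
      3 * (4 ^ n * N * (h⁻¹ * (q * (h ^ 2)⁻¹ / (sd * nj * nk)))) := by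
    refine (mul_le_of_le_one_right (by positivity) hr1).trans ?_
    have c1 : E * ((h ^ 3)⁻¹ / (sd * nj * nk)) ≤ (3 * q) * ((h ^ 3)⁻¹ / (sd * nj * nk)) :=
      mul_le_mul_of_nonneg_right hE2 (by positivity)
    have c2 : (3 * q) * ((h ^ 3)⁻¹ / (sd * nj * nk)) =
        3 * (h⁻¹ * (q * (h ^ 2)⁻¹ / (sd * nj * nk))) := by
      field_simp
    have c5 : 1 ≤ 4 ^ n * N := one_le_mul_of_one_le_of_one_le h4 hN1
    rw [c2] at c1
    refine c1.trans ?_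
    have c6 : 0 ≤ h⁻¹ * (q * (h ^ 2)⁻¹ / (sd * nj * nk)) := by positivity
    have c7 := le_mul_of_one_le_left c6 c5
    linarith
  have z1 : 0 ≤ 4 ^ n * N * (h⁻¹ * (nk / nj)) := by positivity
  have z2 : 0 ≤ 4 ^ n * N * (h⁻¹ * 1) := by positivity
  have z3 : 0 ≤ 4 ^ n * N * (h⁻¹ * (q * (h ^ 2)⁻¹ / (sd * nj * nk))) := by positivity
  calc E * ((P * N * (h ^ 2)⁻¹ * (nk / nj)) * (m / ne)) + E * (m / (nk * P * N * h)) +
        E * ((E * ((h ^ 3)⁻¹ / (sd * nj * nk))) * (m / ne)) ≤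
      E * (4 ^ n * N * (h⁻¹ * (nk / nj))) + E * (4 ^ n * N * (h⁻¹ * 1)) +
        E * (3 * (4 ^ n * N * (h⁻¹ * (q * (h ^ 2)⁻¹ / (sd * nj * nk))))) :=
        add_le_add (add_le_add (mul_le_mul_of_nonneg_left b1 hE.le)
          (mul_le_mul_of_nonneg_left b2 hE.le)) (mul_le_mul_of_nonneg_left b3 hE.le)
    _ = E * (4 ^ n * N * (h⁻¹ * (nk / nj)) + 4 ^ n * N * (h⁻¹ * 1) +
        3 * (4 ^ n * N * (h⁻¹ * (q * (h ^ 2)⁻¹ / (sd * nj * nk))))) := by ring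
    _ ≤ (3 * q) * (3 * (4 ^ n * N * (h⁻¹ * (nk / nj))) + 3 * (4 ^ n * N * (h⁻¹ * 1)) +
        3 * (4 ^ n * N * (h⁻¹ * (q * (h ^ 2)⁻¹ / (sd * nj * nk))))) := by
        refine mul_le_mul hE2 (by linarith) (by positivity) (by positivity)
    _ = _ := by ring

/-- the real inequality for the pairs -/
private theorem real_main {n : ℕ} (hn : 0 < n) {κ : ℝ} (hκ : 0 < κ) (hκn : κ * n ≤ 1)
    {d nj ne nk m h P τ C1 C2 C4 BB D cw : ℝ} (j : ℕ) (hd : 1 ≤ d) (hnj : 1 ≤ nj)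
    (hne : 1 ≤ ne) (hnk : 1 ≤ nk) (hen : ne ≤ nk ^ 2) (hm : 0 ≤ m) (hme : m ≤ ne) (hmk : m ≤ nk) (hh : 1 ≤ h) (hP : 1 ≤ P)
    (hP2 : P ≤ 4 ^ n * h) (hC1 : 0 ≤ C1) (hC2 : 0 ≤ C2) (hC4 : 0 ≤ C4) (hBB : 0 ≤ BB)
    (hD : 0 ≤ D) (hcw : 0 ≤ cw) :
    (C1 * BB * h⁻¹ * (D * nk) * (Real.exp (-τ) / (√d * nk ^ 2))) * (m * (C2 * (P⁻¹ *
      ((2 : ℝ) ^ (-(((2 * n + 4) * j : ℕ) : ℝ)) *
      ((Real.exp (τ + 2) * (√d * nk ^ 2 * (P * 2 ^ (j * n) * h))) *
      (C4 * (cw * d ^ ((1 + κ) / 2)) *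
        ((((P * 2 ^ (j * n) / h ^ 2) / (√d * (nj * ne))) /
          ((P * 2 ^ (j * n) * h)⁻¹ / (√d * nk ^ 2)) +
          ((P * 2 ^ (j * n) * h)⁻¹ / (√d * nk ^ 2)) /
          ((P * 2 ^ (j * n) / h ^ 2) / (√d * (nj * ne)))) ^ κ *
          (Real.exp (1 - τ) * ((P * 2 ^ (j * n) / h ^ 2) / (√d * (nj * ne))) +
            Real.exp (1 - τ) * ((P * 2 ^ (j * n) * h)⁻¹ / (√d * nk ^ 2)) +
            Real.exp (1 - τ) * ((P * 2 ^ (j * n) / h ^ 2) / (√d * (nj * ne))) *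
              (Real.exp (1 - τ) * ((P * 2 ^ (j * n) * h)⁻¹ / (√d * nk ^ 2)))))) *
          3))))) ≤
    (3 * 8 * 32 * 9 * 4 ^ n * (C1 * C2 * C4)) * (BB * cw * D * (d ^ (κ / 2) *
      (h * nj * nk) ^ (2 * κ)) *
      (Real.exp (-τ) * h⁻¹ * (1 + nk / nj + Real.exp (-τ) * (h ^ 2)⁻¹ / (√d * nj * nk)))) *
      (1 / 4) ^ j := by
  have hsd : 1 ≤ √d := Real.one_le_sqrt.2 hd
  have ha := rho_le hn hκ hκn j hsd hnj hne hnk hen hh hP hP2
  have he1 : Real.exp (1 - τ) ≤ 3 * Real.exp (-τ) := by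
    rw [sub_eq_add_neg, Real.exp_add]
    refine mul_le_mul_of_nonneg_right ?_ (Real.exp_pos _).le
    have := Real.exp_one_lt_d9
    linarith
  have hc := vol_le (n := n) j hsd hnj hne hnk hm hme hmk hh hP hP2 (Real.exp_pos (-τ)) (Real.exp_pos (1 - τ)) he1
  set N : ℝ := 2 ^ (j * n) with hN
  have hN1 : 1 ≤ N := one_le_pow₀ (by norm_num)
  set α : ℝ := (P * N / h ^ 2) / (√d * (nj * ne)) with hα
  set β : ℝ := (P * N * h)⁻¹ / (√d * nk ^ 2) with hβ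
  set R : ℝ := (α / β + β / α) ^ κ with hR
  set x : ℝ := (2 : ℝ) ^ (-(((2 * n + 4) * j : ℕ) : ℝ)) with hx
  set Br : ℝ := Real.exp (-τ) * h⁻¹ * (1 + nk / nj + Real.exp (-τ) * (h ^ 2)⁻¹ / (√d * nj * nk)) with hBr
  set V : ℝ := Real.exp (1 - τ) * α + Real.exp (1 - τ) * β + Real.exp (1 - τ) * α * (Real.exp (1 - τ) * β) with hV
  have hα0 : 0 ≤ α := by positivity
  have hβ0 : 0 ≤ β := by positivity
  have hR0 : 0 ≤ R := by positivity
  have hV0 : 0 ≤ V := by positivity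
  have hx0 : 0 ≤ x := by positivity
  have hBr0 : 0 ≤ Br := by positivity
  have hee : Real.exp (-τ) * Real.exp (τ + 2) ≤ 8 := by
    rw [← Real.exp_add, show -τ + (τ + 2) = 1 + 1 by ring, Real.exp_add]
    have h1 := Real.exp_one_lt_d9
    have h2 := Real.exp_pos 1
    nlinarith
  have key : (C1 * BB * h⁻¹ * (D * nk) * (Real.exp (-τ) / (√d * nk ^ 2))) * (m * (C2 * (P⁻¹ *
      (x * ((Real.exp (τ + 2) * (√d * nk ^ 2 * (P * N * h))) *
      (C4 * (cw * d ^ ((1 + κ) / 2)) * (R * V)) * 3))))) =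
      (3 * (C1 * C2 * C4) * (BB * cw * D * d ^ (κ / 2))) * ((Real.exp (-τ) * Real.exp (τ + 2)) *
        ((x * N) * (R * (nk * m * √d * V)))) := by
    rw [disc_pow hd]
    field_simp
  rw [key]
  have hg := geo_eq n j
  rw [← hx, ← hN] at hg
  have hco : 0 ≤ 3 * (C1 * C2 * C4) * (BB * cw * D * d ^ (κ / 2)) := by positivity
  calc (3 * (C1 * C2 * C4) * (BB * cw * D * d ^ (κ / 2))) * ((Real.exp (-τ) * Real.exp (τ + 2)) *
        ((x * N) * (R * (nk * m * √d * V)))) ≤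
      (3 * (C1 * C2 * C4) * (BB * cw * D * d ^ (κ / 2))) * (8 *
        ((x * N) * ((32 * 4 ^ j * (h * nj * nk) ^ (2 * κ)) * (9 * 4 ^ n * N * Br)))) := by
        refine mul_le_mul_of_nonneg_left ?_ hco
        refine mul_le_mul hee ?_ (by positivity) (by norm_num)
        refine mul_le_mul_of_nonneg_left ?_ (by positivity)
        exact mul_le_mul ha hc (by positivity) (by positivity)
    _ = (3 * 8 * 32 * 9 * 4 ^ n * (C1 * C2 * C4)) * (BB * cw * D * (d ^ (κ / 2) *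
      (h * nj * nk) ^ (2 * κ)) * Br) * (x * N ^ 2 * 4 ^ j) := by ring
    _ = _ := by rw [hg]

end real

section NF

variable {K : Type} [Field K] [NumberField K]

/-- the prefactor of the Poisson summation -/
private theorem pref_eq {M : FI K} (hM : M ≠ 0) {q : Ideal (𝓞 K)} (hq : q ≠ ⊥) (τ : ℝ)
    (z : logSpace K) :
    Real.exp (-(∑ v, (v.mult : ℝ) * yM K M τ z v) / 2) *
      (cv K ((q : FI K) * M))⁻¹ =
    Real.exp (-τ) / (Real.sqrt |(discr K : ℝ)| * Nf K q) := by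
  have h1 := nM_pos hM
  have h2 := one_le_Nf' hq
  have h3 := one_le_sqrt_disc (K := K)
  rw [sum_yM, cv_mul', show -(2 * (τ - Real.log (FractionalIdeal.absNorm M : ℝ))) / 2 =
    -τ + Real.log (FractionalIdeal.absNorm M : ℝ) by ring, Real.exp_add, Real.exp_log h1]
  field_simp

/-- theta inversion -/
private theorem th_inv (hTH : T_TH) {M : FI K} (hM : M ≠ 0) {q : Ideal (𝓞 K)} (hq : q ≠ ⊥) (τ : ℝ)
    (z : logSpace K) (w : InfinitePlace K → ℝ) (hw : ∀ v, 0 < w v) :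
    th K (du K ((q : FI K) * M))
      (fun v => -yM K M τ z v - 2 * Real.log (w v)) =
    (Real.exp τ * (Real.sqrt |(discr K : ℝ)| * Nf K q * ∏ v, w v ^ v.mult)) *
      th K ((q : FI K) * M)
        (fun v => yM K M τ z v + 2 * Real.log (w v)) := by
  have hq2 : (q : FI K) ≠ 0 :=
    FractionalIdeal.coeIdeal_ne_zero.2 hq
  have hN : (q : FI K) * M ≠ 0 := mul_ne_zero hq2 hM
  have h0 := (hTH K _ hN (fun v => yM K M τ z v + 2 * Real.log (w v))).2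
  have e1 : (-(fun v => yM K M τ z v + 2 * Real.log (w v)) : InfinitePlace K → ℝ) =
      fun v => -yM K M τ z v - 2 * Real.log (w v) := by
    funext v
    rw [Pi.neg_apply]
    ring
  have e2 : ∑ v, (v.mult : ℝ) * (yM K M τ z v + 2 * Real.log (w v)) =
      2 * (τ - Real.log (FractionalIdeal.absNorm M : ℝ)) +
        2 * ∑ v, (v.mult : ℝ) * Real.log (w v) := by
    rw [← sum_yM M τ z, Finset.mul_sum, ← Finset.sum_add_distrib]
    exact Finset.sum_congr rfl fun v _ => by ring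
  have h1 := nM_pos hM
  have h2 := one_le_Nf' hq
  have h3 := one_le_sqrt_disc (K := K)
  have h4 : 0 < ∏ v, w v ^ v.mult := Finset.prod_pos fun v _ => pow_pos (hw v) _
  have e3 : Real.exp (-(∑ v, (v.mult : ℝ) * (yM K M τ z v + 2 * Real.log (w v))) / 2) =
      Real.exp (-τ) * (FractionalIdeal.absNorm M : ℝ) * (∏ v, w v ^ v.mult)⁻¹ := by
    rw [e2, show -(2 * (τ - Real.log (FractionalIdeal.absNorm M : ℝ)) +
        2 * ∑ v, (v.mult : ℝ) * Real.log (w v)) / 2 =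
      -τ + Real.log (FractionalIdeal.absNorm M : ℝ) +
        -(∑ v, (v.mult : ℝ) * Real.log (w v)) by ring, Real.exp_add, Real.exp_add,
      Real.exp_log h1, Real.exp_neg (∑ v, (v.mult : ℝ) * Real.log (w v)), exp_sum_log w hw]
  rw [e1, e3, cv_mul'] at h0
  rw [h0, Real.exp_neg]
  have h5 := Real.exp_pos τ
  field_simp

open scoped Classical in
/-- the mean value of the pairs -/
private theorem pair_ct {n : ℕ} (hn : Module.finrank ℚ K = n) {κ C4 : ℝ} (hκ : 0 < κ) (hC4 : 0 ≤ C4)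
    (hct : CTK K κ C4) (hTH : T_TH) {ι : Type} [Fintype ι] (M : ι → FI K) (hM : Reps K M)
    {j q e : Ideal (𝓞 K)} (hj : j ≠ ⊥) (hq : q ≠ ⊥) (he : e ≠ ⊥) {H : InfinitePlace K → ℝ}
    (hH : ∀ v, 1 ≤ H v) (i : InfinitePlace K → ℕ) (jj : ℕ) (τ₁ : ℝ) :
    ∑ c, ∫⁻ z in Fd K, ∫⁻ τ in Icc (τ₁ - 1) (τ₁ + 2), ENNReal.ofReal
      ((th K (((j * e : Ideal (𝓞 K)) : FI K) * M c)
        (fun v => yM K (M c) τ z v - 2 * Real.log (2 ^ (i v + jj) / H v ^ 2)) - 1) *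
        th K (du K ((q : FI K) * M c))
          (fun v => -yM K (M c) τ z v - 2 * Real.log (2 ^ (i v + jj) * H v))) ≤
    ENNReal.ofReal (((Real.exp (τ₁ + 2) * (√|(discr K : ℝ)| * Nf K q *
        (PP i * 2 ^ (jj * n) * HH H))) *
      (C4 * (cw K * |(discr K : ℝ)| ^ ((1 + κ) / 2)) *
        ((((PP i * 2 ^ (jj * n) / HH H ^ 2) / (√|(discr K : ℝ)| * (Nf K j * Nf K e))) /
          ((PP i * 2 ^ (jj * n) * HH H)⁻¹ / (√|(discr K : ℝ)| * Nf K q)) +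
          ((PP i * 2 ^ (jj * n) * HH H)⁻¹ / (√|(discr K : ℝ)| * Nf K q)) /
          ((PP i * 2 ^ (jj * n) / HH H ^ 2) / (√|(discr K : ℝ)| * (Nf K j * Nf K e)))) ^ κ *
          (Real.exp (1 - τ₁) * ((PP i * 2 ^ (jj * n) / HH H ^ 2) /
              (√|(discr K : ℝ)| * (Nf K j * Nf K e))) +
            Real.exp (1 - τ₁) * ((PP i * 2 ^ (jj * n) * HH H)⁻¹ /
              (√|(discr K : ℝ)| * Nf K q)) +
            Real.exp (1 - τ₁) * ((PP i * 2 ^ (jj * n) / HH H ^ 2) /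
              (√|(discr K : ℝ)| * (Nf K j * Nf K e))) *
              (Real.exp (1 - τ₁) * ((PP i * 2 ^ (jj * n) * HH H)⁻¹ /
                (√|(discr K : ℝ)| * Nf K q))))))) * 3) := by
  set w₁ : InfinitePlace K → ℝ := fun v => 2 ^ (i v + jj) / H v ^ 2 with hw₁
  set w₂ : InfinitePlace K → ℝ := fun v => 2 ^ (i v + jj) * H v with hw₂
  have hH0 : ∀ v, 0 < H v := fun v => lt_of_lt_of_le one_pos (hH v)
  have pw₁ : ∀ v, 0 < w₁ v := fun v => by
    have := hH0 v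
    positivity
  have pw₂ : ∀ v, 0 < w₂ v := fun v => by
    have := hH0 v
    positivity
  have hje : j * e ≠ ⊥ := mul_ne_zero hj he
  set sd : ℝ := √|(discr K : ℝ)| with hsd
  have hsd1 : 1 ≤ sd := one_le_sqrt_disc
  have hnj := one_le_Nf' hj
  have hnk := one_le_Nf' hq
  have hne := one_le_Nf' he
  have hP := one_le_PP i
  have hh : 1 ≤ HH H := one_le_HH hH
  set α : ℝ := (PP i * 2 ^ (jj * n) / HH H ^ 2) / (sd * (Nf K j * Nf K e)) with hα
  set β : ℝ := (PP i * 2 ^ (jj * n) * HH H)⁻¹ / (sd * Nf K q) with hβ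
  have hα0 : 0 < α := by positivity
  have hβ0 : 0 < β := by positivity
  set F : ℝ := Real.exp (τ₁ + 2) * (sd * Nf K q * (PP i * 2 ^ (jj * n) * HH H)) with hF
  have hF0 : 0 ≤ F := by positivity
  have v1 : ∀ τ, VV K (j * e) (fun v => -(2 * Real.log (w₁ v))) τ = Real.exp (-τ) * α := by
    intro τ
    rw [VV_neg _ w₁ pw₁, Nf_mul', hα]
    simp only [hw₁]
    rw [prod_w1 hn]
  have v2 : ∀ τ, VV K q (fun v => 2 * Real.log (w₂ v)) τ = Real.exp (-τ) * β := by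
    intro τ
    rw [VV_pos _ w₂ pw₂, hβ]
    simp only [hw₂]
    rw [prod_w2 hn]
  set X : ι → logSpace K × ℝ → ℝ := fun c p =>
    (th K (((j * e : Ideal (𝓞 K)) : FI K) * M c)
      (fun v => yM K (M c) p.2 p.1 v + -(2 * Real.log (w₁ v))) - 1) *
    th K ((q : FI K) * M c)
      (fun v => yM K (M c) p.2 p.1 v + 2 * Real.log (w₂ v)) with hX
  have hXm : ∀ c, Measurable (fun p => ENNReal.ofReal F * ENNReal.ofReal (X c p)) := by
    intro c
    have h1 : ((j * e : Ideal (𝓞 K)) : FI K) * M c ≠ 0 :=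
      mul_ne_zero (FractionalIdeal.coeIdeal_ne_zero.2 hje) (hM.1 c)
    have h2 : (q : FI K) * M c ≠ 0 :=
      mul_ne_zero (FractionalIdeal.coeIdeal_ne_zero.2 hq) (hM.1 c)
    have h3 := th_cont hTH _ (M c) h1 (fun v => -(2 * Real.log (w₁ v)))
    have h4 := th_cont hTH _ (M c) h2 (fun v => 2 * Real.log (w₂ v))
    have h5 : Measurable (X c) := ((h3.sub continuous_const).mul h4).measurable
    exact h5.ennreal_ofReal.const_mul _
  set R : ℝ := (F * (C4 * (cw K * |(discr K : ℝ)| ^ ((1 + κ) / 2)) *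
        ((α / β + β / α) ^ κ * (Real.exp (1 - τ₁) * α + Real.exp (1 - τ₁) * β +
            Real.exp (1 - τ₁) * α * (Real.exp (1 - τ₁) * β))))) with hR
  have hcw : 0 ≤ cw K := cw_nn
  have hR0 : 0 ≤ R := by positivity
  have hstep : ∀ c z τ, τ ∈ Icc (τ₁ - 1) (τ₁ + 2) → ENNReal.ofReal
      ((th K (((j * e : Ideal (𝓞 K)) : FI K) * M c)
        (fun v => yM K (M c) τ z v - 2 * Real.log (w₁ v)) - 1) *
        th K (du K ((q : FI K) * M c))
          (fun v => -yM K (M c) τ z v - 2 * Real.log (w₂ v))) ≤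
      ENNReal.ofReal F * ENNReal.ofReal (X c (z, τ)) := by
    intro c z τ hτ
    rw [th_inv hTH (hM.1 c) hq τ z w₂ pw₂]
    have e1 : ∏ v, w₂ v ^ v.mult = PP i * 2 ^ (jj * n) * HH H := prod_w2 hn H i jj
    rw [e1, ← hsd]
    set F' : ℝ := Real.exp τ * (sd * Nf K q * (PP i * 2 ^ (jj * n) * HH H)) with hF'
    have hF'0 : 0 ≤ F' := by positivity
    have hFF : F' ≤ F := by
      refine mul_le_mul_of_nonneg_right (Real.exp_le_exp.2 hτ.2) (by positivity)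
    have e2 : (th K (((j * e : Ideal (𝓞 K)) : FI K) * M c)
        (fun v => yM K (M c) τ z v - 2 * Real.log (w₁ v)) - 1) *
        (F' * th K ((q : FI K) * M c)
          (fun v => yM K (M c) τ z v + 2 * Real.log (w₂ v))) = F' * X c (z, τ) := by
      simp only [hX, ← sub_eq_add_neg]
      ring
    rw [e2, ENNReal.ofReal_mul hF'0]
    exact mul_le_mul' (ENNReal.ofReal_le_ofReal hFF) le_rfl
  have h1 : ∑ c, ∫⁻ z in Fd K, ∫⁻ τ in Icc (τ₁ - 1) (τ₁ + 2), ENNReal.ofReal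
      ((th K (((j * e : Ideal (𝓞 K)) : FI K) * M c)
        (fun v => yM K (M c) τ z v - 2 * Real.log (w₁ v)) - 1) *
        th K (du K ((q : FI K) * M c))
          (fun v => -yM K (M c) τ z v - 2 * Real.log (w₂ v))) ≤
      ∑ c, ∫⁻ z in Fd K, ∫⁻ τ in Icc (τ₁ - 1) (τ₁ + 2),
        ENNReal.ofReal F * ENNReal.ofReal (X c (z, τ)) := by
    refine Finset.sum_le_sum fun c _ => lintegral_mono fun z => ?_
    exact setLIntegral_mono' measurableSet_Icc fun τ hτ => hstep c z τ hτ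
  refine h1.trans ?_
  have h2 := swap_sum (fun c p => ENNReal.ofReal F * ENNReal.ofReal (X c p)) hXm (τ₁ - 1) (τ₁ + 2)
    (ENNReal.ofReal R) (fun τ hτ => ?_)
  · refine h2.trans (le_of_eq ?_)
    rw [← ENNReal.ofReal_mul hR0, show τ₁ + 2 - (τ₁ - 1) = 3 by ring]
  · have h3 := (hct ι M hM (j * e) q (fun v => -(2 * Real.log (w₁ v)))
      (fun v => 2 * Real.log (w₂ v)) τ hje hq).1
    rw [v1, v2] at h3
    simp only [lintegral_const_mul' _ _ ENNReal.ofReal_ne_top]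
    rw [← Finset.mul_sum, hR, ENNReal.ofReal_mul hF0]
    refine mul_le_mul' le_rfl (h3.trans (ENNReal.ofReal_le_ofReal ?_))
    refine mul_le_mul_of_nonneg_left ?_ (by positivity)
    have hex : 0 < Real.exp (-τ) := Real.exp_pos _
    have q1 : Real.exp (-τ) * α / (Real.exp (-τ) * β) = α / β := by field_simp
    have q2 : Real.exp (-τ) * β / (Real.exp (-τ) * α) = β / α := by field_simp
    rw [q1, q2]
    refine mul_le_mul_of_nonneg_left ?_ (by positivity)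
    have hle : Real.exp (-τ) ≤ Real.exp (1 - τ₁) := by
      refine Real.exp_le_exp.2 ?_
      have := hτ.1
      linarith
    have a1 : Real.exp (-τ) * α ≤ Real.exp (1 - τ₁) * α := mul_le_mul_of_nonneg_right hle hα0.le
    have a2 : Real.exp (-τ) * β ≤ Real.exp (1 - τ₁) * β := mul_le_mul_of_nonneg_right hle hβ0.le
    exact add_le_add (add_le_add a1 a2) (mul_le_mul a1 a2 (by positivity) (by positivity))

end NF

open scoped Classical in
/-- the integral of the pointwise bound -/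
private theorem point_bound {K : Type} [Field K] [NumberField K] (hZN : U_ZN) (M : FI K)
    (cp : InfinitePlace K → ℂ) (H : InfinitePlace K → ℝ) (p : InfinitePlace K → ℂ → ℂ)
    (hpm : ∀ v, Measurable (p v)) (s : Bool) (τ₁ : ℝ) {j q : Ideal (𝓞 K)} (hj : j ≠ ⊥)
    (hq : q ≠ ⊥) (hM : M ≠ 0) (f : K → ℂ) (X₁ : Finset K) (A : ℕ) (W₀ : ℝ) (hW₀ : 0 ≤ W₀)
    (hQ : ∀ (y : InfinitePlace K → ℝ) (ω : InfinitePlace K → ℂ), Pos ω →
      ∑ r ∈ X₁, ENNReal.ofReal (‖Sq j M f r cp H p y ω‖ ^ 2) ≤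
      ∑' x : {x : K // x ∈ M}, ENNReal.ofReal (‖Wg cp H p x y ω‖ ^ 2) +
      ENNReal.ofReal (W₀ * (Real.exp (-(∑ v, (v.mult : ℝ) * y v) / 2) *
          (cv K ((q : FI K) * M))⁻¹)) *
        ∑ e ∈ dvs K q, ENNReal.ofReal (min (Nf K e) (Real.sqrt (Nf K q))) *
          ∑' h : {h : K // h ∈ ((j * e : Ideal (𝓞 K)) : FI K) * M ∧ h ≠ 0},
            ∑' y' : {y' : K // y' ∈ du K ((q : FI K) * M)},
              ENNReal.ofReal (Amb A cp H h y' y ω)) :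
    ∫⁻ z in Fd K, ∫⁻ τ in Icc τ₁ (τ₁ + 1), ∫⁻ θ in An K, ∑ r ∈ X₁,
      ENNReal.ofReal (‖Sq j M f r cp H p (yM K M τ (zs s z)) (om s θ)‖ ^ 2) ≤
      (∫⁻ z in Fd K, ∫⁻ τ in Icc τ₁ (τ₁ + 1), ∫⁻ θ in An K,
        DS M cp H p (yM K M τ z) (om s θ)) +
      ENNReal.ofReal (W₀ * (Real.exp (-τ₁) / (√|(discr K : ℝ)| * Nf K q))) *
        ∑ e ∈ dvs K q, ENNReal.ofReal (min (Nf K e) (Real.sqrt (Nf K q))) *
        ∫⁻ z in Fd K, ∫⁻ τ in Icc τ₁ (τ₁ + 1), ∫⁻ θ in An K,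
          PS (((j * e : Ideal (𝓞 K)) : FI K) * M)
            (du K ((q : FI K) * M)) A cp H
            (yM K M τ z) (om s θ) := by
  have hnk := one_le_Nf' hq
  have hsd : 1 ≤ √|(discr K : ℝ)| := one_le_sqrt_disc
  set W : ℝ := W₀ * (Real.exp (-τ₁) / (√|(discr K : ℝ)| * Nf K q)) with hW
  set GD : logSpace K × (ℝ × (InfinitePlace K → ℝ)) → ℝ≥0∞ := fun P =>
    DS M cp H p (yM K M P.2.1 (zs s P.1)) (om s P.2.2) with hGD
  set GP : Ideal (𝓞 K) → logSpace K × (ℝ × (InfinitePlace K → ℝ)) → ℝ≥0∞ := fun e P =>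
    PS (((j * e : Ideal (𝓞 K)) : FI K) * M) (du K ((q : FI K) * M)) A cp H
      (yM K M P.2.1 (zs s P.1)) (om s P.2.2) with hGP
  have e1 := TI_comb τ₁ (τ₁ + 1) (dvs K q) (fun e => ENNReal.ofReal (min (Nf K e) (Real.sqrt (Nf K q))))
    (ENNReal.ofReal W) GD GP (measurable_DS' M cp H p hpm s)
    (fun e => measurable_PS' _ _ M A cp H s)
  have e2 := TI_mono τ₁ (τ₁ + 1)
    (fun P => ∑ r ∈ X₁, ENNReal.ofReal (‖Sq j M f r cp H p
      (yM K M P.2.1 (zs s P.1)) (om s P.2.2)‖ ^ 2))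
    (fun P => GD P + ENNReal.ofReal W * ∑ e ∈ dvs K q, ENNReal.ofReal (min (Nf K e) (Real.sqrt (Nf K q))) * GP e P)
    (fun z τ θ hτ => by
      have e3 := hQ (yM K M τ (zs s z)) (om s θ) (Pos_om s θ)
      rw [pref_eq hM hq] at e3
      refine e3.trans ?_
      refine add_le_add le_rfl (mul_le_mul' (ENNReal.ofReal_le_ofReal ?_) le_rfl)
      rw [hW]
      refine mul_le_mul_of_nonneg_left ?_ hW₀
      refine div_le_div_of_nonneg_right (Real.exp_le_exp.2 ?_) (by positivity)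
      have := hτ.1
      linarith)
  rw [e1] at e2
  have f1 : TI τ₁ (τ₁ + 1) GD = ∫⁻ z in Fd K, ∫⁻ τ in Icc τ₁ (τ₁ + 1), ∫⁻ θ in An K,
        DS M cp H p (yM K M τ z) (om s θ) := by
    unfold TI
    exact refl_DS hZN M cp H p hpm s τ₁ (τ₁ + 1)
  have f2 : ∀ e, TI τ₁ (τ₁ + 1) (GP e) = ∫⁻ z in Fd K, ∫⁻ τ in Icc τ₁ (τ₁ + 1), ∫⁻ θ in An K,
          PS (((j * e : Ideal (𝓞 K)) : FI K) * M)
            (du K ((q : FI K) * M)) A cp H
            (yM K M τ z) (om s θ) := by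
    intro e
    unfold TI
    exact refl_PS hZN _ _ M A cp H s τ₁ (τ₁ + 1)
  rw [f1] at e2
  simp only [f2] at e2
  unfold TI at e2
  exact e2

open scoped Classical in
/-- (TT) -/
theorem pf_TT (hQW : Q_QW) (hAO : V_AO) (hDI : V_DI) (hCT : V_CT) (hZN : U_ZN)
    (hTH : T_TH) : Q_TT := by
  intro n hn ε hε hε1
  have hn0 : (0 : ℝ) < n := by exact_mod_cast hn
  obtain ⟨κ, hκ, hκε, hκn, hκ1⟩ : ∃ κ : ℝ, 0 < κ ∧ κ ≤ ε / 8 ∧ κ * n ≤ 1 ∧ κ ≤ 1 := by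
    refine ⟨min (ε / 8) (1 / n), by positivity, min_le_left _ _, ?_, ?_⟩
    · calc min (ε / 8) (1 / n) * n ≤ (1 / n) * n :=
            mul_le_mul_of_nonneg_right (min_le_right _ _) hn0.le
        _ = 1 := by field_simp
    · refine (min_le_left _ _).trans ?_
      linarith
  obtain ⟨C1, hC1, hQW⟩ := hQW n (2 * n + 4) hn (by omega)
  obtain ⟨C2, hC2, hAO⟩ := hAO n (2 * n + 4) hn (by omega)
  obtain ⟨C3, hC3, hDI⟩ := hDI n (2 * n + 4) hn (by omega)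
  obtain ⟨C4, hC4, hCT⟩ := hCT n hn κ hκ hκ1
  refine ⟨2 * (27 * (C3 * C4)) + (8 / (ε / 4)) ^ n * (2 * (3 * 8 * 32 * 9 * 4 ^ n *
    (C1 * C2 * C4))), by positivity, ?_⟩
  intro K _ _ hK ι _ M hM j q D f X₁ cp H p B s τ₁ hj hq hD hf hX hPrm hB hp
  have hH : ∀ v, 1 ≤ H v := fun v => hPrm.one_le v
  have hct : CTK K κ C4 := hCT K hK
  have hpm : ∀ v, Measurable (p v) := fun v => (hp v).continuous.measurable
  have hD0 : 0 ≤ D := by linarith
  have hB0 : 0 ≤ B := by linarith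
  have hnj := one_le_Nf' hj
  have hnq := one_le_Nf' hq
  set nk : ℝ := Real.sqrt (Nf K q) with hnkd
  have hnk : 1 ≤ nk := Real.one_le_sqrt.2 hnq
  have hNq : Nf K q = nk ^ 2 := by rw [hnkd, Real.sq_sqrt (by linarith)]
  have hh : 1 ≤ HH H := one_le_HH hH
  have hd : 1 ≤ |(discr K : ℝ)| := one_le_disc
  have hsd : 1 ≤ √|(discr K : ℝ)| := one_le_sqrt_disc
  have hcw : 0 ≤ cw K := cw_nn
  set W : ℝ := C1 * B ^ (2 * n) * (HH H)⁻¹ * (D * nk) *
    (Real.exp (-τ₁) / (√|(discr K : ℝ)| * Nf K q)) with hW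
  have hW0 : 0 ≤ W := by positivity
  set A : ℕ := 2 * n + 4 with hA
  -- step 1: the pointwise bound
  have h1 : ∀ c, ∫⁻ z in Fd K, ∫⁻ τ in Icc τ₁ (τ₁ + 1), ∫⁻ θ in An K, ∑ r ∈ X₁ c,
      ENNReal.ofReal (‖Sq j (M c) (f c) r cp H p (yM K (M c) τ (zs s z)) (om s θ)‖ ^ 2) ≤
      (∫⁻ z in Fd K, ∫⁻ τ in Icc τ₁ (τ₁ + 1), ∫⁻ θ in An K,
        DS (M c) cp H p (yM K (M c) τ z) (om s θ)) +
      ENNReal.ofReal W * ∑ e ∈ dvs K q, ENNReal.ofReal (min (Nf K e) (Real.sqrt (Nf K q))) *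
        ∫⁻ z in Fd K, ∫⁻ τ in Icc τ₁ (τ₁ + 1), ∫⁻ θ in An K,
          PS (((j * e : Ideal (𝓞 K)) : FI K) * M c)
            (du K ((q : FI K) * M c)) A cp H
            (yM K (M c) τ z) (om s θ) := by
    intro c
    refine point_bound hZN (M c) cp H p hpm s τ₁ hj hq (hM.1 c) (f c) (X₁ c) A
      (C1 * B ^ (2 * n) * (HH H)⁻¹ * (D * nk)) (by positivity) (fun y ω hω => ?_)
    exact hQW K hK j q (M c) (f c) D (X₁ c) cp H p B hj hq (hM.1 c) hD (hf c) (hX c)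
        hPrm hB hp y ω hω
  -- the diagonal
  have h2 : ∑ c, ∫⁻ z in Fd K, ∫⁻ τ in Icc τ₁ (τ₁ + 1), ∫⁻ θ in An K,
      DS (M c) cp H p (yM K (M c) τ z) (om s θ) ≤
      ENNReal.ofReal (2 * ((27 * (C3 * C4)) * (B ^ (2 * n) * cw K *
        (|(discr K : ℝ)| ^ (κ / 2) * (Real.exp |τ₁|) ^ κ) *
          (Real.exp (-τ₁) * (HH H)⁻¹)))) := by
    have e1 : ∀ c, ∫⁻ z in Fd K, ∫⁻ τ in Icc τ₁ (τ₁ + 1), ∫⁻ θ in An K,
        DS (M c) cp H p (yM K (M c) τ z) (om s θ) ≤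
        ENNReal.ofReal (C3 * B ^ (2 * n) * (HH H)⁻¹) *
        ∑' j : ℕ, ENNReal.ofReal ((2 : ℝ) ^ (-((A * j : ℕ) : ℝ))) *
          ∫⁻ z in Fd K, ∫⁻ τ in Icc (τ₁ - 1) (τ₁ + 2), ENNReal.ofReal
            (th K (M c) (fun v => yM K (M c) τ z v - 2 * Real.log (2 ^ j)) - 1) := by
      intro c
      exact hDI K hK (M c) cp H p B s τ₁ (hM.1 c) hPrm hB
        (fun v => (hp v).mono (Nat.zero_le _) le_rfl)
    have e3 := (Finset.sum_le_sum fun c (_ : c ∈ (Finset.univ : Finset ι)) => e1 c)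
    rw [sum_out1] at e3
    refine e3.trans ?_
    set T1 : ℝ := (27 * (C3 * C4)) * (B ^ (2 * n) * cw K *
        (|(discr K : ℝ)| ^ (κ / 2) * (Real.exp |τ₁|) ^ κ) *
          (Real.exp (-τ₁) * (HH H)⁻¹)) with hT1
    have hT10 : 0 ≤ T1 := by positivity
    refine le_trans (ENNReal.tsum_le_tsum fun jj => ?_) (tsum_quarter T1 hT10)
    have e2 := diag_ct hK hκ hC4 hct hTH M hM jj τ₁
    refine (mul_le_mul' le_rfl (mul_le_mul' le_rfl e2)).trans ?_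
    have e4 : 0 ≤ C3 * B ^ (2 * n) * (HH H)⁻¹ := by positivity
    have e5 : (0 : ℝ) ≤ (2 : ℝ) ^ (-((A * jj : ℕ) : ℝ)) := by positivity
    rw [← ENNReal.ofReal_mul e5, ← ENNReal.ofReal_mul e4]
    exact ENNReal.ofReal_le_ofReal (real_diag hn hκ hκ1 hκn jj hd hh hC3 hC4 (by positivity) hcw)
  -- the pairs
  set T2 : ℝ := (3 * 8 * 32 * 9 * 4 ^ n * (C1 * C2 * C4)) * (B ^ (2 * n) * cw K * D *
    (|(discr K : ℝ)| ^ (κ / 2) * (HH H * Nf K j * nk) ^ (2 * κ)) *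
      (Real.exp (-τ₁) * (HH H)⁻¹ * (1 + nk / Nf K j + Real.exp (-τ₁) * (HH H ^ 2)⁻¹ /
        (√|(discr K : ℝ)| * Nf K j * nk)))) with hT2
  have hT20 : 0 ≤ T2 := by positivity
  set Ix := Fintype.piFinset (fun v : InfinitePlace K => Finset.range (nH (H v) + 1)) with hIx
  have h3 : ∀ e ∈ dvs K q, ENNReal.ofReal W * (ENNReal.ofReal (min (Nf K e) (Real.sqrt (Nf K q))) *
      ∑ c, ∫⁻ z in Fd K, ∫⁻ τ in Icc τ₁ (τ₁ + 1), ∫⁻ θ in An K,
          PS (((j * e : Ideal (𝓞 K)) : FI K) * M c)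
            (du K ((q : FI K) * M c)) A cp H
            (yM K (M c) τ z) (om s θ)) ≤ Ix.card * ENNReal.ofReal (2 * T2) := by
    intro e he
    obtain ⟨he0, hek⟩ := Nf_dvs hq he
    rw [hNq] at hek
    have hne := one_le_Nf' he0
    have e1 : ∀ c, ∫⁻ z in Fd K, ∫⁻ τ in Icc τ₁ (τ₁ + 1), ∫⁻ θ in An K,
          PS (((j * e : Ideal (𝓞 K)) : FI K) * M c)
            (du K ((q : FI K) * M c)) A cp H
            (yM K (M c) τ z) (om s θ) ≤
        ENNReal.ofReal C2 * ∑ i ∈ Ix,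
          ENNReal.ofReal (∏ v : InfinitePlace K, (2 : ℝ) ^ (-((i v * v.mult : ℕ) : ℝ))) *
          ∑' jj : ℕ, ENNReal.ofReal ((2 : ℝ) ^ (-((A * jj : ℕ) : ℝ))) *
            ∫⁻ z in Fd K, ∫⁻ τ in Icc (τ₁ - 1) (τ₁ + 2), ENNReal.ofReal
              ((th K (((j * e : Ideal (𝓞 K)) : FI K) * M c)
                (fun v => yM K (M c) τ z v - 2 * Real.log (2 ^ (i v + jj) / H v ^ 2)) - 1) *
                th K (du K ((q : FI K) * M c))
                  (fun v => -yM K (M c) τ z v - 2 * Real.log (2 ^ (i v + jj) * H v))) := by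
      intro c
      have hje : ((j * e : Ideal (𝓞 K)) : FI K) * M c ≠ 0 :=
        mul_ne_zero (FractionalIdeal.coeIdeal_ne_zero.2 (mul_ne_zero hj he0)) (hM.1 c)
      have hk2 : (q : FI K) * M c ≠ 0 :=
        mul_ne_zero (FractionalIdeal.coeIdeal_ne_zero.2 hq) (hM.1 c)
      exact hAO K hK _ _ (M c) cp H s τ₁ hje (FractionalIdeal.dual_ne_zero ℤ ℚ hk2) (hM.1 c) hPrm
    have e2 := (Finset.sum_le_sum fun c (_ : c ∈ (Finset.univ : Finset ι)) => e1 c)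
    rw [sum_out] at e2
    refine (mul_le_mul' le_rfl (mul_le_mul' le_rfl e2)).trans ?_
    refine (fin_out Ix _ _ _ _ _ _ (fun jj => ENNReal.ofReal (T2 * (1 / 4) ^ jj)) ?_).trans
      (mul_le_mul' le_rfl (tsum_quarter T2 hT20))
    intro i hi jj
    have hi2 : ∀ v, i v ≤ nH (H v) := by
      intro v
      have := Fintype.mem_piFinset.1 hi v
      rw [Finset.mem_range] at this
      omega
    have e3 := pair_ct hK hκ hC4 hct hTH M hM hj hq he0 hH i jj τ₁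
    refine (mul_le_mul' le_rfl (mul_le_mul' le_rfl (mul_le_mul' le_rfl (mul_le_mul' le_rfl
      (mul_le_mul' le_rfl e3))))).trans ?_
    have hP := one_le_PP i
    have hP0 : 0 ≤ (PP i)⁻¹ := by positivity
    have hm0 : 0 ≤ min (Nf K e) nk := le_min (by linarith) (by linarith)
    rw [PP_inv, ← ENNReal.ofReal_mul (by positivity), ← ENNReal.ofReal_mul hP0,
      ← ENNReal.ofReal_mul hC2, ← ENNReal.ofReal_mul hm0, ← ENNReal.ofReal_mul hW0]
    refine ENNReal.ofReal_le_ofReal ?_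
    rw [hW, hNq]
    exact real_main hn hκ hκn jj hd hnj hne hnk hek hm0 (min_le_left _ _) (min_le_right _ _) hh hP
      (PP_le hK hH i hi2) hC1 hC2 hC4 (by positivity) hD0 hcw
  -- the sum
  have h4 : ∑ c, ∫⁻ z in Fd K, ∫⁻ τ in Icc τ₁ (τ₁ + 1), ∫⁻ θ in An K, ∑ r ∈ X₁ c,
      ENNReal.ofReal (‖Sq j (M c) (f c) r cp H p (yM K (M c) τ (zs s z)) (om s θ)‖ ^ 2) ≤
      ENNReal.ofReal (2 * ((27 * (C3 * C4)) * (B ^ (2 * n) * cw K *
        (|(discr K : ℝ)| ^ (κ / 2) * (Real.exp |τ₁|) ^ κ) *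
          (Real.exp (-τ₁) * (HH H)⁻¹)))) +
      (dvs K q).card * (Ix.card * ENNReal.ofReal (2 * T2)) := by
    refine (Finset.sum_le_sum fun c _ => h1 c).trans ?_
    rw [Finset.sum_add_distrib]
    refine add_le_add h2 ?_
    rw [← Finset.mul_sum, Finset.sum_comm, Finset.mul_sum]
    refine le_trans (Finset.sum_le_sum fun e he => ?_)
      (le_of_eq (by rw [Finset.sum_const, nsmul_eq_mul]))
    rw [← Finset.mul_sum]
    exact h3 e he
  refine h4.trans ?_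
  have e5 : ((dvs K q).card : ℝ≥0∞) * (Ix.card * ENNReal.ofReal (2 * T2)) =
      ENNReal.ofReal ((dvs K q).card * (Ix.card * (2 * T2))) := by
    rw [ENNReal.ofReal_mul (Nat.cast_nonneg _), ENNReal.ofReal_mul (Nat.cast_nonneg _),
      ENNReal.ofReal_natCast, ENNReal.ofReal_natCast]
  have hq1 : (0 : ℝ) ≤ (dvs K q).card * (Ix.card * (2 * T2)) :=
    mul_nonneg (Nat.cast_nonneg _) (mul_nonneg (Nat.cast_nonneg _)
      (mul_nonneg (by norm_num) hT20))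
  rw [e5, ← ENNReal.ofReal_add (by positivity) hq1]
  refine ENNReal.ofReal_le_ofReal ?_
  have hcard := card_scales hK hH (δ := ε / 4) (by positivity) (by linarith)
  rw [← hIx] at hcard
  have hcd : (1 : ℝ) ≤ (dvs K q).card := one_le_card_dvs hq
  have hT1 : 1 ≤ Real.exp |τ₁| := Real.one_le_exp (abs_nonneg _)
  obtain ⟨s1', s2'⟩ := small_le (h := HH H) (T := Real.exp |τ₁|) hε hκ hκε hd hnj hnk hh hT1
  set S : ℝ := (|(discr K : ℝ)| * Nf K j * Nf K q * HH H * Real.exp |τ₁|) ^ ε with hS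
  have hSS : (|(discr K : ℝ)| * Nf K j * nk * HH H * Real.exp |τ₁|) ^ ε ≤ S := by
    refine Real.rpow_le_rpow (by positivity) ?_ hε.le
    have hnk2 : nk ≤ Nf K q := by
      rw [hNq]
      nlinarith
    gcongr
  have s1 := s1'.trans hSS
  have s2 := s2'.trans hSS
  have hS0 : 0 ≤ S := by positivity
  set Br : ℝ := 1 + nk / Nf K j + Real.exp (-τ₁) * (HH H ^ 2)⁻¹ /
        (√|(discr K : ℝ)| * Nf K j * nk) with hBr
  have hBr1 : 1 ≤ Br := by
    have g1 : 0 ≤ nk / Nf K j := by positivity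
    have g2 : 0 ≤ Real.exp (-τ₁) * (HH H ^ 2)⁻¹ / (√|(discr K : ℝ)| * Nf K j * nk) := by
      positivity
    linarith
  set Q : ℝ := Real.exp (-τ₁) * (HH H)⁻¹ with hQ
  have hQ0 : 0 ≤ Q := by positivity
  have hBB0 : 0 ≤ B ^ (2 * n) := by positivity
  have hcD : 1 ≤ (dvs K q).card * D := one_le_mul_of_one_le_of_one_le hcd hD
  have r1 : 2 * ((27 * (C3 * C4)) * (B ^ (2 * n) * cw K *
        (|(discr K : ℝ)| ^ (κ / 2) * (Real.exp |τ₁|) ^ κ) * Q)) ≤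
      (2 * (27 * (C3 * C4))) * (B ^ (2 * n) * cw K * ((dvs K q).card * D) * S * (Q * Br)) := by
    have g0 : 0 ≤ B ^ (2 * n) * cw K := by positivity
    have g1 : B ^ (2 * n) * cw K * (|(discr K : ℝ)| ^ (κ / 2) * (Real.exp |τ₁|) ^ κ) * Q ≤
        B ^ (2 * n) * cw K * S * Q :=
      mul_le_mul_of_nonneg_right (mul_le_mul_of_nonneg_left s2 g0) hQ0
    have g2 : B ^ (2 * n) * cw K * S * Q ≤
        (B ^ (2 * n) * cw K * S * Q) * (((dvs K q).card * D) * Br) :=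
      le_mul_of_one_le_right (by positivity) (one_le_mul_of_one_le_of_one_le hcD hBr1)
    have g3 := mul_le_mul_of_nonneg_left (g1.trans g2)
      (by positivity : (0 : ℝ) ≤ 2 * (27 * (C3 * C4)))
    refine le_trans (le_of_eq (by ring)) (g3.trans (le_of_eq (by ring)))
  have r2 : (dvs K q).card * (Ix.card * (2 * T2)) ≤
      ((8 / (ε / 4)) ^ n * (2 * (3 * 8 * 32 * 9 * 4 ^ n * (C1 * C2 * C4)))) *
        (B ^ (2 * n) * cw K * ((dvs K q).card * D) * S * (Q * Br)) := by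
    have g1 : (Ix.card : ℝ) * (2 * T2) ≤ ((8 / (ε / 4)) ^ n * HH H ^ (ε / 4)) * (2 * T2) :=
      mul_le_mul_of_nonneg_right hcard (by positivity)
    have g2 := mul_le_mul_of_nonneg_left g1 (by linarith : (0 : ℝ) ≤ (dvs K q).card)
    refine g2.trans ?_
    have g3 : (dvs K q).card * (((8 / (ε / 4)) ^ n * HH H ^ (ε / 4)) * (2 * T2)) =
        ((8 / (ε / 4)) ^ n * (2 * (3 * 8 * 32 * 9 * 4 ^ n * (C1 * C2 * C4)))) *
        (B ^ (2 * n) * cw K * ((dvs K q).card * D) * (|(discr K : ℝ)| ^ (κ / 2) *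
          (HH H * Nf K j * nk) ^ (2 * κ) * HH H ^ (ε / 4)) * (Q * Br)) := by
      rw [hT2]
      ring
    rw [g3]
    have hcd0 : (0 : ℝ) ≤ (dvs K q).card * D := mul_nonneg (Nat.cast_nonneg _) hD0
    have hQB : 0 ≤ Q * Br := mul_nonneg hQ0 (by linarith)
    refine mul_le_mul_of_nonneg_left ?_ (by positivity)
    refine mul_le_mul_of_nonneg_right ?_ hQB
    exact mul_le_mul_of_nonneg_left s1 (mul_nonneg (mul_nonneg hBB0 hcw) hcd0)
  refine (add_le_add r1 r2).trans (le_of_eq ?_)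
  ring

end Pool.Agent.H18.FW.TT
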